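import Pool.Agent.R887.CorE
import Pool.Agent.R887.DefsKod

/-!
The Kodaira dimension and the numerical dimension of a projective manifold agree if it is dominated
by multi-valued maps of large degree from a fixed variety.
-/

set_option autoImplicit false

open FF Pool.Agent.W602.GT Pool.Agent.Y172 Pool.Agent.R887

/-- Let `X` be a projective variety of dimension `n` with canonical singularities, for instance a
projective manifold, with generic point `y`, let `X'` be a normal projective variety of dimension
`n`, with generic point `y'`, and `S` a finite set of prime divisors of `X'`. Let `k < n`. Suppose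
that for all `ε > 0` there is a multi-valued rational map `X' ← X'' → X`, that is a variety `X''`
with a generically finite rational map `p` to `X'`, unramified over the prime divisors of `X'` which
are not in `S`, and a dominant rational map `f` to `X`, such that the intersection number of
`n - k - 1` pull backs by `f` of hyperplane sections of `X` and `k + 1` pull backs by `p` of
hyperplane sections of `X'` is at most `ε deg f`. If the Kodaira dimension of `X` is at least `k`,
then the Kodaira dimension and the numerical dimension of `X` are both equal to `k`. -/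
theorem Pool.Agent.Results.MP_c2a5fc_ag.MultivaluedKappaNu.result
    {K K' : Type} [Field K] [Algebra ℂ K] [Field K'] [Algebra ℂ K'] {N N' n : ℕ}
    {y : Fin (N + 1) → K} {y' : Fin (N' + 1) → K'} (hy : NormalModel y) (hy' : NormalModel y')
    (hn : Algebra.trdeg ℂ K = n) (hn' : Algebra.trdeg ℂ K' = n) (hcan : Canonical y n)
    {k : ℕ} (hk : k < n) {S : Set (Place ℂ K')} (hS : S.Finite)
    (h : ∀ ε : ℝ, 0 < ε → ∃ (L : Type) (_ : Field L) (_ : Algebra ℂ L) (φ : K →ₐ[ℂ] L)
      (ψ : K' →ₐ[ℂ] L), FiniteDimensional ψ.fieldRange L ∧ UnramifiedOutside ψ y' S ∧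
        MultiDegreeLe φ ψ y y' (n - (k + 1)) (k + 1) ε)
    (hkod : KodairaGe y n k) : KodairaEq y n k ∧ NumDimEq y n k := by
  have hnum : NumDimLt y n 0 (k + 1) := by
    refine numdim2 hy hy' hn hn' (by omega) hcan.lc hk hS fun ε hε => ?_
    obtain ⟨L, _, _, φ, ψ, h1, h2, h3⟩ := h ε hε
    exact ⟨L, _, _, φ, ψ, h1, h2, hcan.multi hy hy' hn hn' φ ψ h1 S, h3⟩
  refine ⟨⟨hkod, ?_⟩, hnum, fun h0 => ?_⟩
  · rintro ⟨m, hm, ω, E, hω, hω0, hind⟩
    exact kappa_lt hy hn hk hnum hm (fun i => by rw [smul_zero]; exact hω i) hω0 hind
  · obtain ⟨m, hm, ω, E, hω, hω0, hind⟩ := hkod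
    exact kappa_lt hy hn hk.le h0 hm (fun i => by rw [smul_zero]; exact hω i) hω0 hind
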