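import Pool.Agent.R887.CorH

/-!
A bound for the intersection numbers of the canonical class of all projective manifolds `X` which are
dominated by a fixed variety `X'`, in terms of the degrees of a single (multi-valued) rational map
`X' ⇢ X`, and the abundance criterion for nef `K_X` which follows.
-/

set_option autoImplicit false

open FF Pool.Agent.W602.GT Pool.Agent.Y172 Pool.Agent.R887

/-- Let `X'` be a normal projective variety of dimension `n ≥ 1`, with generic point `y'`, and `S` a
finite set of prime divisors of `X'`. There is a constant `C`, which depends only on `X'` and `S`,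
such that the following holds for all projective varieties `X` of dimension `n` with canonical
singularities (for instance projective manifolds), with generic point `y`, and for every
multi-valued rational map `X' ← X'' → X`, that is a variety `X''` with a generically finite rational
map `p` to `X'`, unramified over the prime divisors of `X'` which are not in `S`, and a dominant
rational map `f` to `X`. (`X'' = X'` and `p = id` is the case of a rational map.)

(1) If `j ≤ n` and the intersection number `(f^* H)^(n-j) (p^* H')^j`, `H` and `H'` being hyperplane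
sections of `X` and `X'`, is at most `c deg f`, then the positive product `⟨K_X^j⟩ H^(n-j)` is at
most `c C^j`, and the rational maps given by `j + 1` `m`-canonical forms and `n - j` pencils of
hyperplane sections have degree at most `c (C m)^j`. In particular, if `c (C m)^j < 1`, then the
image of the `m`-canonical map of `X` has dimension less than `j`.

(2) If `K_X` is nef, `η ≠ 0` is a section of `m K_X`, and `(f^* H)^(n-1) (p^* H')` is at most
`c deg f` with `c C m < 1`, then `η` has no zeros: `m K_X` is trivial, and `κ (X) = ν (X) = 0`. -/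
theorem Pool.Agent.Results.MP_c2a5fc_ag.OneMapCriterion.result
    {K' : Type} [Field K'] [Algebra ℂ K'] {N' n : ℕ} {y' : Fin (N' + 1) → K'}
    (hy' : NormalModel y') (hn' : Algebra.trdeg ℂ K' = n) (hn0 : 0 < n) {S : Set (Place ℂ K')}
    (hS : S.Finite) :
    ∃ C : ℕ, 0 < C ∧ ∀ (K L : Type) [Field K] [Algebra ℂ K] [Field L] [Algebra ℂ L] (N : ℕ)
      (y : Fin (N + 1) → K), NormalModel y → Algebra.trdeg ℂ K = n → Canonical y n →
      ∀ (φ : K →ₐ[ℂ] L) (ψ : K' →ₐ[ℂ] L), FiniteDimensional ψ.fieldRange L →
      UnramifiedOutside ψ y' S →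
      (∀ (j : ℕ) (c : ℝ), j ≤ n → MultiDegreeLe φ ψ y y' (n - j) j c →
        PositiveProductLe y n 0 j (c * C ^ j) ∧
        ∀ m : ℕ, 1 ≤ m → ∀ u : Fin (n - j) → K, (∀ a, IsPencil y (u a)) →
        ∀ (ω : Fin (j + 1) → (Fin n → Derivation ℂ K K) → K) (E : Fin n → Derivation ℂ K K),
          (∀ i, IsSection y n m 0 (ω i)) → ω 0 E ≠ 0 →
          (degreeOver u (fun i : Fin j => ω i.succ E / ω 0 E) : ℝ) ≤ c * (C * m) ^ j) ∧
      (CanonicalNef y n → ∀ m : ℕ, 1 ≤ m → ∀ c : ℝ, c * (C * m) < 1 →
        MultiDegreeLe φ ψ y y' (n - 1) 1 c →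
        ∀ η : (Fin n → Derivation ℂ K K) → K, IsSection y n m 0 η → η ≠ 0 →
        ∀ P, IsPrimeDivisor y P → OrdEq P η 0) := by
  obtain ⟨M, hM⟩ := one_map hy' hn' hn0 hS
  refine ⟨M + 1, Nat.succ_pos _, ?_⟩
  intro K L _ _ _ _ N y hy hn hcan φ ψ hψ hun
  have hfd : 0 < mapDegree φ := by
    let _ : Algebra K L := φ.toRingHom.toAlgebra
    let _ : Algebra K' L := ψ.toRingHom.toAlgebra
    have hst : IsScalarTower ℂ K L :=
      IsScalarTower.of_algebraMap_eq fun c => (φ.commutes c).symm
    have hst' : IsScalarTower ℂ K' L :=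
      IsScalarTower.of_algebraMap_eq fun c => (ψ.commutes c).symm
    have hfd' : FiniteDimensional K' L := fd_of_range ψ hψ
    have hess' := hy'.ess
    have hess := hy.ess
    have hessL : Algebra.EssFiniteType ℂ L := by
      have h1 : Algebra.EssFiniteType K' L := inferInstance
      exact Algebra.EssFiniteType.comp ℂ K' L
    have hnL : Algebra.trdeg ℂ L = n := trdeg_up (K := K') hn'
    have hfd : FiniteDimensional K L := finite_map hn hnL
    have hdeg : mapDegree φ = Module.finrank K L := by
      unfold mapDegree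
      let e : K ≃ₐ[ℂ] φ.fieldRange := AlgEquiv.ofInjectiveField φ
      refine (Algebra.finrank_eq_of_equiv_equiv e.toRingEquiv (RingEquiv.refl L) ?_).symm
      ext x
      rfl
    rw [hdeg]
    exact Module.finrank_pos
  have hbd : ∀ A : Place ℂ K → ℚ, Effective y A → ∃ β C : ℕ, ∀ (j : ℕ) (c : ℝ), j ≤ n →
      MultiDegreeLe φ ψ y y' (n - j) j c → ∀ m b : ℕ, 1 ≤ m →
      ∀ u : Fin (n - j) → K, (∀ a, IsPencil y (u a)) →
      ∀ (ω : Fin (j + 1) → (Fin n → Derivation ℂ K K) → K) (E : Fin n → Derivation ℂ K K),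
        (∀ i, IsSection y n m (m • (0 : Place ℂ K → ℚ) + b • A) (ω i)) → ω 0 E ≠ 0 →
        (degreeOver u (fun i : Fin j => ω i.succ E / ω 0 E) : ℝ) ≤
          c * (m * ((M + 1 : ℕ) : ℝ) + b * β + C) ^ j := by
    intro A hA
    obtain ⟨β, C, h⟩ := hM hy hn hcan.lc hA φ ψ hψ hun (hcan.multi hy hy' hn hn' φ ψ hψ S)
    refine ⟨β, C, fun j c hj hc m b hm u hu ω E hω h0 => ?_⟩
    refine (h hj hc m b hm u hu ω E hω h0).trans ?_
    have hc0 := multi_nonneg hy hy' hc hfd
    refine mul_le_mul_of_nonneg_left (pow_le_pow_left₀ (by positivity) ?_ j) hc0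
    push_cast
    have h1 : (0 : ℝ) ≤ m := Nat.cast_nonneg _
    nlinarith
  have hsec : ∀ {m : ℕ} {η : (Fin n → Derivation ℂ K K) → K}, IsSection y n m 0 η →
      IsSection y n m (m • (0 : Place ℂ K → ℚ)) η := by
    intro m η h
    rwa [smul_zero]
  refine ⟨fun j c hj hc => ?_, fun hnef m hm c hlt hc η hη hη0 => ?_⟩
  · have hc0 := multi_nonneg hy hy' hc hfd
    refine ⟨product_of_bound hc0 fun A hA => ?_, fun m hm u hu ω E hω h0 => ?_⟩
    · obtain ⟨β, C, h⟩ := hbd A hA
      exact ⟨β, C, fun m b hm u hu ω E hω h0 => h j c hj hc m b hm u hu ω E hω h0⟩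
    · obtain ⟨β, C, h⟩ := hbd 0 zero_effective
      have h1 := pluri_bound (y := y) (Δ := 0) hn hj hc0 (M := M + 1) (C := C)
        (fun m hm u hu ω E hω h0 => by
          have h2 := h j c hj hc m 0 hm u hu ω E (fun i => by
            rw [zero_smul, add_zero]
            exact hω i) h0
          push_cast at h2 ⊢
          rwa [zero_mul, add_zero] at h2) hm hu (fun i => hsec (hω i)) h0
      rwa [mul_comm (m : ℝ)] at h1
  · have h1 := nef_trivial_one hy hn hn0 (Δ := 0) hnef.logNef (c := c) (M := M + 1)
      (fun A hA => by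
        obtain ⟨β, C, h⟩ := hbd A hA
        exact ⟨β, C, fun m b hm u hu ω E hω h0 => h 1 c hn0 hc m b hm u hu ω E hω h0⟩) hm
      (fun P _ => ⟨0, by simp⟩) (by
        have h2 : c * ((M + 1 : ℕ) : ℝ) * m = c * (((M + 1 : ℕ) : ℝ) * m) := by ring
        rw [h2]
        exact hlt) (hsec hη) hη0
    intro P hP
    have h2 := h1 P hP
    rwa [Pi.zero_apply, mul_zero, neg_zero] at h2
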