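import Pool.Agent.R887.PsF
import Pool.Agent.R887.DefsKod

/-!
The Kodaira dimension and the numerical dimension of a projective manifold agree if it is dominated
by varieties whose canonical degrees are small in comparison with the degrees of the maps.
-/

set_option autoImplicit false

open FF Pool.Agent.W602.GT Pool.Agent.Y172 Pool.Agent.R887

/-- Let `X` be a projective variety of dimension `n` with canonical singularities, for instance a
projective manifold, with generic point `y`, and let `k < n`. Suppose that for all `ε > 0` there are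
a normal projective variety `X'` of dimension `n`, with generic point `y'`, an effective
`ℚ`-divisor `Δ'` on `X'`, and a multi-valued map `X' ← X'' → X`, that is a variety `X''` with a
generically finite rational map `p` to `X'`, unramified over the prime divisors of `X'` with
coefficient less than one in `Δ'`, and a dominant rational map `f` to `X`, such that the positive
degree `⟨K_X' + Δ'⟩ · H' ^ (n - 1)` is at most `μ`, the intersection number of `n - k - 1` pull
backs by `f` of hyperplane sections of `X` and `k + 1` pull backs by `p` of hyperplane sections of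
`X'` is at most `c deg f`, and `c μ ^ (k + 1) ≤ ε`. If the Kodaira dimension of `X` is at least `k`,
then the Kodaira dimension and the numerical dimension of `X` are both equal to `k`. -/
theorem Pool.Agent.Results.MP_c2a5fc_ag.VaryingSources.result
    {K : Type} [Field K] [Algebra ℂ K] {N n : ℕ} {y : Fin (N + 1) → K} (hy : NormalModel y)
    (hn : Algebra.trdeg ℂ K = n) (hcan : Canonical y n) {k : ℕ} (hk : k < n)
    (h : ∀ ε : ℝ, 0 < ε → ∃ (K' L : Type) (_ : Field K') (_ : Algebra ℂ K') (_ : Field L)
      (_ : Algebra ℂ L) (N' : ℕ) (y' : Fin (N' + 1) → K') (Δ' : Place ℂ K' → ℚ)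
      (φ : K →ₐ[ℂ] L) (ψ : K' →ₐ[ℂ] L) (μ c : ℝ), NormalModel y' ∧ Algebra.trdeg ℂ K' = n ∧
      Effective y' Δ' ∧ 0 ≤ μ ∧ PositiveProductLe y' n Δ' 1 μ ∧
      FiniteDimensional ψ.fieldRange L ∧ UnramifiedOutside ψ y' {P | 1 ≤ Δ' P} ∧
      MultiDegreeLe φ ψ y y' (n - (k + 1)) (k + 1) c ∧ c * μ ^ (k + 1) ≤ ε)
    (hkod : KodairaGe y n k) : KodairaEq y n k ∧ NumDimEq y n k := by
  have hnum : NumDimLt y n 0 (k + 1) := by
    refine PositiveProductLe.numDimLt (PositiveProductLe.of_forall fun ε hε => ?_)
    obtain ⟨K', L, _, _, _, _, N', y', Δ', φ, ψ, μ, c, hy', hn', hΔ', hμ, hpp, hψ, hun, hc,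
      hcε⟩ := h ε hε
    exact ⟨_, by linarith, (psef_degree_le hy' hn' (by omega) hΔ' hμ hpp hy hn hcan.lc φ ψ hψ hun
      (hcan.multi hy hy' hn hn' φ ψ hψ _) (j := k + 1) hk hc).2⟩
  refine ⟨⟨hkod, ?_⟩, hnum, fun h0 => ?_⟩
  · rintro ⟨m, hm, ω, E, hω, hω0, hind⟩
    exact kappa_lt hy hn hk hnum hm (fun i => by rw [smul_zero]; exact hω i) hω0 hind
  · obtain ⟨m, hm, ω, E, hω, hω0, hind⟩ := hkod
    exact kappa_lt hy hn hk.le h0 hm (fun i => by rw [smul_zero]; exact hω i) hω0 hind
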